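import Pool.Agent.MP_3ce0a0_al.H79.XS

/-
Small invariant subspaces: the even sign changes and the elements of order three act trivially.
-/

namespace Pool.Agent.MP_3ce0a0_al.H20

open Equiv Module Finset Pool.Agent.MP_3ce0a0_al.H62.Inst Pool.Agent.MP_3ce0a0_al.H79
  Pool.Agent.MP_3ce0a0_al.H79.X

section lin
variable {V ι : Type} [AddCommGroup V] [Module ℂ V] [DecidableEq ι]

/-- the sign pattern `I` occurs. -/
def Occ (x : ι → End ℂ V) (S I : Finset ι) : Prop :=
  ∃ v : V, v ≠ 0 ∧ ∀ a ∈ S, x a v = if a ∈ I then -v else v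

omit [DecidableEq ι] in
lemma exists_joint (x : ι → End ℂ V) (S : Finset ι) (y : End ℂ V)
    (h1 : ∀ a ∈ S, x a * x a = 1) (h2 : ∀ a ∈ S, ∀ b ∈ S, Commute (x a) (x b))
    (h3 : ∀ a ∈ S, Commute y (x a)) (hy : y * y = 1) (hn : y ≠ 1) :
    ∃ v : V, v ≠ 0 ∧ y v = -v ∧ ∀ a ∈ S, x a v = v ∨ x a v = -v := by
  classical
  have key : ∀ T : Finset ι, T ⊆ S → ∃ v : V, v ≠ 0 ∧ y v = -v ∧
      ∀ a ∈ T, x a v = v ∨ x a v = -v := by
    intro T
    induction T using Finset.induction_on with
    | empty =>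
      intro _
      obtain ⟨u, hu⟩ : ∃ u, y u ≠ u := by
        by_contra h
        push Not at h
        exact hn (LinearMap.ext h)
      refine ⟨u - y u, sub_ne_zero.2 hu.symm, ?_, by simp⟩
      have : y (y u) = u := by rw [← End.mul_apply, hy, End.one_apply]
      rw [map_sub, this, neg_sub]
    | insert c T hc ih =>
      intro hT
      obtain ⟨w, hw, hyw, hx⟩ := ih ((subset_insert _ _).trans hT)
      have hcS : c ∈ S := hT (mem_insert_self _ _)
      have hcc : x c (x c w) = w := by rw [← End.mul_apply, h1 c hcS, End.one_apply]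
      by_cases h : x c w = w
      · refine ⟨w, hw, hyw, fun a ha => ?_⟩
        rcases mem_insert.1 ha with rfl | ha
        · exact Or.inl h
        · exact hx a ha
      · refine ⟨w - x c w, sub_ne_zero.2 (Ne.symm h), ?_, fun a ha => ?_⟩
        · rw [map_sub, ← End.mul_apply y, (h3 c hcS).eq, End.mul_apply, hyw, map_neg]
          abel
        · rcases mem_insert.1 ha with rfl | ha
          · right
            rw [map_sub, hcc, neg_sub]
          · have e : x a (x c w) = x c (x a w) := by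
              rw [← End.mul_apply, (h2 a (hT (mem_insert_of_mem ha)) c hcS).eq, End.mul_apply]
            rcases hx a ha with k | k
            · left
              rw [map_sub, e, k]
            · right
              rw [map_sub, e, k, map_neg]
              abel
  exact key S Subset.rfl

lemma neg_ne {v : V} (hv : v ≠ 0) : -v ≠ v := fun h => hv (by
  have : (2 : ℂ) • v = 0 := by rw [two_smul]; nth_rewrite 1 [← h]; simp
  simpa using this)

lemma exists_occ (x : ι → End ℂ V) (S : Finset ι) (y : End ℂ V)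
    (h1 : ∀ a ∈ S, x a * x a = 1) (h2 : ∀ a ∈ S, ∀ b ∈ S, Commute (x a) (x b))
    (h3 : ∀ a ∈ S, Commute y (x a)) (hy : y * y = 1) (hn : y ≠ 1) :
    ∃ I ⊆ S, ∃ v : V, v ≠ 0 ∧ y v = -v ∧ ∀ a ∈ S, x a v = if a ∈ I then -v else v := by
  classical
  obtain ⟨v, hv, hyv, hx⟩ := exists_joint x S y h1 h2 h3 hy hn
  refine ⟨S.filter fun a => x a v = -v, filter_subset _ _, v, hv, hyv, fun a ha => ?_⟩
  by_cases h : x a v = -v
  · rw [if_pos (mem_filter.2 ⟨ha, h⟩), h]
  · rw [if_neg (by simp [h])]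
    exact (hx a ha).resolve_right h

lemma card_le [Finite ι] [FiniteDimensional ℂ V] (x : ι → End ℂ V) (S : Finset ι)
    (T : Finset (Finset ι)) (h : ∀ I ∈ T, I ⊆ S ∧ Occ x S I) : T.card ≤ finrank ℂ V := by
  obtain ⟨e⟩ : Nonempty (ι ↪ ℕ) := by
    obtain ⟨n, ⟨f⟩⟩ := Finite.exists_equiv_fin ι
    exact ⟨f.toEmbedding.trans Fin.valEmbedding⟩
  choose v hv hx using fun I : T => (h I.1 I.2).2
  let f : End ℂ V := ∑ a ∈ S, ((2 : ℂ) ^ e a) • (1 - x a)
  let μ : T → ℂ := fun I => 2 * ((∑ i ∈ I.1.map e, 2 ^ i : ℕ) : ℂ)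
  have hμ : Function.Injective μ := fun I J k => by
    have k1 := mul_left_cancel₀ (two_ne_zero' ℂ) k
    have k2 := Finset.geomSum_injective (n := 2) le_rfl (Nat.cast_injective k1)
    exact Subtype.ext (map_injective e k2)
  have hl := f.eigenvectors_linearIndependent' μ hμ v fun I => ⟨by
    rw [End.mem_eigenspace_iff]
    have : ∀ a ∈ S, (((2 : ℂ) ^ e a) • (1 - x a)) (v I) =
        (if a ∈ I.1 then (2 : ℂ) * 2 ^ e a else 0) • v I := fun a ha => by
      rw [LinearMap.smul_apply, LinearMap.sub_apply, End.one_apply, hx I a ha]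
      split_ifs
      · rw [sub_neg_eq_add, ← two_smul ℂ, smul_smul, mul_comm]
      · simp
    rw [LinearMap.sum_apply, sum_congr rfl this, ← sum_smul, ← sum_filter, filter_mem_eq_inter,
      inter_eq_right.2 (h I.1 I.2).1, ← mul_sum]
    simp [μ], hv I⟩
  simpa using hl.fintype_card_le_finrank

end lin

lemma le_choose' : ∀ n k : ℕ, 1 ≤ k → k < n → n ≤ n.choose k
  | 0, _, _, h => by omega
  | n + 1, 0, h, _ => by omega
  | n + 1, k + 1, _, h => by
    rcases Nat.eq_zero_or_pos k with rfl | hk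
    · simp
    · have := le_choose' n k hk (by omega)
      have := Nat.choose_pos (n := n) (k := k + 1) (by omega)
      rw [Nat.choose_succ_succ']
      omega

section abs
variable {V ι : Type} [AddCommGroup V] [Module ℂ V] [FiniteDimensional ℂ V] [DecidableEq ι]
  [Fintype ι]

lemma eps_eq (N : WS ι (End ℂ V)ˣ) (hd : finrank ℂ V < Fintype.card ι) (a b : ι) :
    N.ε a * N.ε b = 1 := by
  by_contra hn
  let x : ι → End ℂ V := fun c => (N.ε c : End ℂ V)
  have h1 : ∀ c, x c * x c = 1 := fun c => congrArg Units.val (N.ε_sq c)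
  have h2 : ∀ c d, Commute (x c) (x d) := fun c d => congrArg Units.val (N.ε_comm c d)
  obtain ⟨I, -, v, hv, hy, hx⟩ := exists_occ x univ (x a * x b) (fun c _ => h1 c)
    (fun c _ d _ => h2 c d) (fun c _ => (h2 a c).mul_left (h2 b c))
    (by rw [mul_assoc, ← mul_assoc (x b), (h2 b a).eq, mul_assoc, h1, mul_one, h1])
    fun k => hn (Units.ext k)
  have hab : ¬ (a ∈ I ↔ b ∈ I) := fun k => by
    rw [End.mul_apply, hx b (mem_univ _)] at hy
    by_cases l : a ∈ I
    · rw [if_pos (k.1 l), map_neg, hx a (mem_univ _), if_pos l, neg_neg] at hy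
      exact neg_ne hv hy.symm
    · rw [if_neg fun m => l (k.2 m), hx a (mem_univ _), if_neg l] at hy
      exact neg_ne hv hy.symm
  have k1 : 1 ≤ I.card := by
    rcases I.eq_empty_or_nonempty with rfl | k
    · simp at hab
    · exact k.card_pos
  have k2 : I.card < Fintype.card ι := by
    refine card_lt_card (ssubset_univ_iff.2 ?_)
    rintro rfl
    simp at hab
  have := card_le x univ (powersetCard I.card univ) fun J hJ => ⟨subset_univ _, by
    obtain ⟨σ, rfl⟩ := Perm.exists_map_finset_eq I J (mem_powersetCard.1 hJ).2.symm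
    refine ⟨(N.π σ : End ℂ V) v, fun k => hv ?_, fun c _ => ?_⟩
    · have := congrArg ((N.π σ)⁻¹ : (End ℂ V)ˣ).val k
      rwa [← End.mul_apply, Units.inv_mul, End.one_apply, map_zero] at this
    · obtain ⟨d, rfl⟩ := σ.surjective c
      have e : x (σ d) * (N.π σ : End ℂ V) = (N.π σ : End ℂ V) * x d :=
        (congrArg Units.val (N.π_ε σ d)).symm
      have m : σ d ∈ I.map σ.toEmbedding ↔ d ∈ I := mem_map' _
      rw [← End.mul_apply, e, End.mul_apply, hx d (mem_univ _)]
      by_cases l : d ∈ I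
      · rw [if_pos l, if_pos (m.2 l), map_neg]
      · rw [if_neg l, if_neg fun k => l (m.1 k)]⟩
  rw [card_powersetCard, card_univ] at this
  have := le_choose' _ _ k1 k2
  omega

lemma rho_eq (N : NS ι (End ℂ V)ˣ) (h5 : 5 ≤ Fintype.card ι) (hd : finrank ℂ V < Fintype.card ι)
    (c b : ι) (hcb : c ≠ b) : N.ρ c b = 1 ∧ N.lam c b = 1 := by
  have he : ∀ a f, N.ε a = N.ε f := fun a f =>
    (eq_inv_of_mul_eq_one_left (eps_eq N.toWS hd a f)).trans
      (eq_inv_of_mul_eq_one_left (N.ε_sq f)).symm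
  have hc : ∀ a f g, a ≠ f → N.ε g * N.ρ a f * N.ε g = N.ρ a f := fun a f g h => by
    obtain ⟨d, hd⟩ : ∃ d, d ∉ ({a, f} : Finset ι) := by
      by_contra k
      push Not at k
      have := card_le_card (fun d _ => k d : (univ : Finset ι) ⊆ {a, f})
      have := card_le_two (a := a) (b := f)
      rw [card_univ] at *
      omega
    rw [mem_insert, mem_singleton, not_or] at hd
    rw [he g d, (N.ε_other a f d h hd.1 hd.2).eq, mul_assoc, N.ε_sq, mul_one]
  have hi : ∀ a f, a ≠ f → (N.ρ a f)⁻¹ = N.ρ a f := fun a f h =>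
    (N.ε_right a f h).symm.trans (hc a f f h)
  have hl : ∀ a f, a ≠ f → N.lam a f = N.ρ a f := fun a f h => by
    rw [← hi a f h, ← hc a f a h, N.ε_left a f h, inv_inv]
  have hs : ∀ a f, a ≠ f → N.ρ a f * N.ρ a f = 1 := fun a f h => by
    nth_rewrite 1 [← hi a f h]
    exact inv_mul_cancel _
  have hcm : ∀ a f d g, a ≠ f → d ≠ g → a ≠ g → d ≠ f → Commute (N.ρ a f) (N.ρ d g) :=
    fun a f d g h1 h2 h3 h4 => hl d g h2 ▸ N.ρ_lam a f d g h1 h2 h3 h4
  suffices h : N.ρ c b = 1 from ⟨h, (hl c b hcb).trans h⟩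
  by_contra hn
  let x : ι → End ℂ V := fun a => (N.ρ a b : End ℂ V)
  have hS : ∀ a, a ∈ univ.erase b → a ≠ b := fun a h => (mem_erase.1 h).1
  have hcS : c ∈ univ.erase b := mem_erase.2 ⟨hcb, mem_univ _⟩
  have h1 : ∀ a ∈ univ.erase b, x a * x a = 1 := fun a h => congrArg Units.val (hs a b (hS a h))
  have h2 : ∀ a ∈ univ.erase b, ∀ d ∈ univ.erase b, Commute (x a) (x d) := fun a h d k =>
    congrArg Units.val (hcm a b d b (hS a h) (hS d k) (hS a h) (hS d k)).eq
  obtain ⟨I, hI, v, hv, hy, hx⟩ := exists_occ x (univ.erase b) (x c) h1 h2 (h2 c hcS) (h1 c hcS)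
    fun k => hn (Units.ext k)
  have hcI : c ∈ I := by
    by_contra k
    rw [hx c hcS, if_neg k] at hy
    exact neg_ne hv hy.symm
  have flip : ∀ (J : Finset ι) a, a ≠ b → a ≠ c → c ∈ J → Occ x (univ.erase b) J →
      Occ x (univ.erase b) (symmDiff J {a}) := by
    rintro J a hab hac hJ ⟨w, hw, hxw⟩
    let u : End ℂ V := (N.ρ c a : End ℂ V)
    have huu : u * u = 1 := congrArg Units.val (hs c a hac.symm)
    refine ⟨u w, fun k => hw ?_, fun d hd => ?_⟩
    · have := congrArg u k
      rwa [← End.mul_apply, huu, End.one_apply, map_zero] at this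
    · by_cases hda : d = a
      · subst hda
        have e0 := N.conj_lam d b c hab hac.symm hcb
        rw [hl c d hac.symm, hl c b hcb, hi c d hac.symm, hi c b hcb] at e0
        have e1 : N.ρ d b * N.ρ c d = N.ρ c d * (N.ρ d b * N.ρ c b) := by
          rw [← e0, ← mul_assoc, ← mul_assoc, hs c d hac.symm, one_mul]
        have e : x d * u = u * (x d * x c) := congrArg Units.val e1
        rw [← End.mul_apply, e, End.mul_apply, End.mul_apply, hxw c hcS, if_pos hJ, map_neg,
          hxw d hd]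
        by_cases l : d ∈ J <;> simp [mem_symmDiff, l]
      · have e : x d * u = u * x d :=
          congrArg Units.val (hcm d b c a (hS d hd) hac.symm hda hcb).eq
        rw [← End.mul_apply, e, End.mul_apply, hxw d hd]
        by_cases l : d ∈ J <;> simp [mem_symmDiff, l, hda]
  have all : ∀ D : Finset ι, D ⊆ (univ.erase b).erase c → Occ x (univ.erase b) (symmDiff I D) := by
    intro D
    induction D using Finset.induction_on with
    | empty => exact fun _ => ⟨v, hv, by simpa [mem_symmDiff] using hx⟩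
    | insert a D ha ih =>
      intro hD
      have hD' := (subset_insert _ _).trans hD
      have m := mem_erase.1 (hD (mem_insert_self _ _))
      have e : symmDiff I (insert a D) = symmDiff (symmDiff I D) {a} := by
        ext d
        by_cases k : d = a <;> simp [mem_symmDiff, k, ha]
      rw [e]
      refine flip _ a (hS a m.2) m.1 (mem_symmDiff.2 (Or.inl ⟨hcI, fun k => ?_⟩)) (ih hD')
      exact (mem_erase.1 (hD' k)).1 rfl
  have := card_le x (univ.erase b) ((((univ.erase b).erase c).powerset).image (symmDiff I))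
    fun J hJ => by
      obtain ⟨D, hD, rfl⟩ := mem_image.1 hJ
      refine ⟨fun d hd => ?_, all D (mem_powerset.1 hD)⟩
      rcases mem_symmDiff.1 hd with k | k
      · exact hI k.1
      · exact mem_of_mem_erase (mem_powerset.1 hD k.1)
  rw [card_image_of_injective _ (symmDiff_right_injective I), card_powerset,
    card_erase_of_mem hcS, card_erase_of_mem (mem_univ _), card_univ] at this
  obtain ⟨m, hm⟩ : ∃ m, Fintype.card ι = m + 3 := ⟨Fintype.card ι - 3, by omega⟩
  have k := Nat.lt_two_pow_self (n := m)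
  rw [hm, show m + 3 - 1 - 1 = m + 1 from rfl, pow_succ] at this
  omega

end abs

section res
variable {ι H : Type} [DecidableEq ι] [AddCommGroup H] [Module ℂ H]

/-- the automorphisms that keep a subspace, together with their inverses. -/
def KG (r : Rep ι H) (Q : Submodule ℂ H) : Subgroup (A ι) where
  carrier := {α | Keeps (r α) Q ∧ Keeps (r α⁻¹) Q}
  one_mem' := by simp [Keeps]
  mul_mem' := fun {α β} h k => ⟨fun v hv => by
      rw [map_mul]; exact h.1 _ (k.1 v hv), fun v hv => by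
      rw [mul_inv_rev, map_mul]; exact k.2 _ (h.2 v hv)⟩
  inv_mem' := fun {α} h => ⟨h.2, by rw [inv_inv]; exact h.1⟩

/-- the restricted representation. -/
def res (r : Rep ι H) (Q : Submodule ℂ H) : KG r Q →* End ℂ Q where
  toFun α := (r α.1).restrict α.2.1
  map_one' := LinearMap.ext fun v => Subtype.ext (by simp)
  map_mul' α β := LinearMap.ext fun v => Subtype.ext (LinearMap.congr_fun (r.map_mul α.1 β.1) v.1)

/-- the relations inside a subgroup. -/
def NK (K : Subgroup (A ι)) (h1 : ∀ a, ep a ∈ K) (h2 : ∀ σ, pm σ ∈ K) (h3 : ∀ a b, rh a b ∈ K)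
    (h4 : ∀ a b, la a b ∈ K) : NS ι K where
  ε a := ⟨ep a, h1 a⟩
  π := pm.codRestrict K h2
  ρ a b := ⟨rh a b, h3 a b⟩
  lam a b := ⟨la a b, h4 a b⟩
  ε_sq a := Subtype.ext ((N0 ι).ε_sq a)
  ε_comm a b := Subtype.ext ((N0 ι).ε_comm a b)
  π_ε σ a := Subtype.ext ((N0 ι).π_ε σ a)
  π_ρ σ a b h := Subtype.ext ((N0 ι).π_ρ σ a b h)
  π_lam σ a b h := Subtype.ext ((N0 ι).π_lam σ a b h)
  ε_right a b h := Subtype.ext ((N0 ι).ε_right a b h)
  ε_left a b h := Subtype.ext ((N0 ι).ε_left a b h)
  ε_other a b c h k l := Subtype.ext ((N0 ι).ε_other a b c h k l).eq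
  ρ_ρ a b c e h k l m n := Subtype.ext ((N0 ι).ρ_ρ a b c e h k l m n).eq
  ρ_lam a b c e h k l m := Subtype.ext ((N0 ι).ρ_lam a b c e h k l m).eq
  lam_lam a b c e h k l m n := Subtype.ext ((N0 ι).lam_lam a b c e h k l m n).eq
  conj_lam a b c h k l := Subtype.ext ((N0 ι).conj_lam a b c h k l)
  conj_ρ a b c h k l := Subtype.ext ((N0 ι).conj_ρ a b c h k l)
  gersten a b h := Subtype.ext ((N0 ι).gersten a b h)

end res

theorem ssmallR : SSmallR := by
  intro ι H _ _ _ _ _ r Q h5 hd k1 k2 k3 a b hab v hv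
  have h1 : ∀ c, ep c ∈ KG r Q := fun c => ⟨k1 c, by
    have e : ep c * ep c = 1 := (N0 ι).ε_sq c
    rw [← eq_inv_of_mul_eq_one_left e]; exact k1 c⟩
  have h2 : ∀ σ, pm σ ∈ KG r Q := fun σ => ⟨k2 σ, by rw [← map_inv]; exact k2 _⟩
  have h3 : ∀ c d, rh c d ∈ KG r Q := fun c d => by
    by_cases h : c = d
    · rw [rh, dif_pos h]; exact one_mem _
    · refine ⟨k3 c d h, fun w hw => ?_⟩
      have e : ep d * rh c d * ep d = (rh c d)⁻¹ := (N0 ι).ε_right c d h
      rw [← e, map_mul, map_mul]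
      exact k1 d _ (k3 c d h _ (k1 d w hw))
  have h4 : ∀ c d, la c d ∈ KG r Q := fun c d => by
    by_cases h : c = d
    · rw [la, dif_pos h]; exact one_mem _
    · have e : ep c * rh c d * ep c = (la c d)⁻¹ := (N0 ι).ε_left c d h
      rw [← inv_mem_iff, ← e]
      exact mul_mem (mul_mem (h1 c) (h3 c d)) (h1 c)
  let f := (res r Q).toHomUnits
  let N := (NK (KG r Q) h1 h2 h3 h4).map f
  have out : ∀ α : KG r Q, f α = 1 → r α.1 v = v := fun α h =>
    congrArg Subtype.val (LinearMap.congr_fun (congrArg Units.val h) ⟨v, hv⟩)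
  have e1 := rho_eq N h5 hd a b hab
  have e2 := rho_eq N h5 hd b a hab.symm
  have g := N.gersten b a hab.symm
  rw [e1.1, e2.1, e2.2, inv_one, one_mul, one_mul, swap_comm] at g
  refine ⟨out (⟨ep a, h1 a⟩ * ⟨ep b, h1 b⟩) ?_, ?_⟩
  · rw [map_mul]
    exact eps_eq N.toWS hd a b
  · have := out (⟨ep a, h1 a⟩ * ⟨rh b a, h3 b a⟩ * ⟨pm (swap a b), h2 _⟩) (by
      rw [map_mul, map_mul]
      change N.ε a * N.ρ b a * N.π (swap a b) = 1
      rw [e2.1, mul_one]
      exact mul_eq_one_comm.1 g.symm)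
    exact this

end Pool.Agent.MP_3ce0a0_al.H20
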